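import Pool.Agent.H.MP_b7335c_lc.h16.Star

/-! The base structure over the integers modulo 13 and its powers. -/

namespace Pool.Agent.H.MP_b7335c_lc.h16

abbrev E0 : Type := ZMod 13 × Fin 4 × Fin 2

def A0 (e : E0) : ZMod 13 × Fin 4 := (e.1, e.2.1)

def B0 (e : E0) : ZMod 13 := e.1 + X e.2.1 e.2.2

def C0 (e : E0) : ZMod 13 := e.1 + Y e.2.1 e.2.2

theorem star0 : Star A0 B0 C0 where
  ab := by
    rintro ⟨g, l, i⟩ ⟨g', l', i'⟩ h1 h2
    simp only [A0, Prod.mk.injEq] at h1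
    obtain ⟨rfl, rfl⟩ := h1
    simp only [B0, add_right_inj] at h2
    rw [X_inj l i i' h2]
  ac := by
    rintro ⟨g, l, i⟩ ⟨g', l', i'⟩ h1 h2
    simp only [A0, Prod.mk.injEq] at h1
    obtain ⟨rfl, rfl⟩ := h1
    simp only [C0, add_right_inj] at h2
    rw [Y_inj l i i' h2]
  one := by
    rintro ⟨g, l, i⟩ ⟨g', l', j⟩ ⟨g'', l'', k⟩ h1 h2 h3
    simp only [A0, Prod.mk.injEq] at h3 ⊢
    obtain ⟨rfl, rfl⟩ := h3
    simp only [B0, C0] at h1 h2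
    have h4 : Y l i - X l i = Y l' k - X l' j := by linear_combination h1 - h2
    obtain ⟨rfl, rfl⟩ := key_one _ _ _ _ _ h4
    exact ⟨add_right_cancel h1, rfl⟩
  two := by
    rintro ⟨g, l, i⟩ ⟨g', l', i'⟩ ⟨g1, l1, j⟩ ⟨g2, l2, k⟩ ⟨h, l3, j3⟩ ⟨h', l4, k3⟩ h0 h1 h2 h3 h4
      h5 h6 h7
    simp only [A0, Prod.mk.injEq] at h1 h3 h7
    obtain ⟨rfl, rfl⟩ := h1
    obtain ⟨rfl, rfl⟩ := h3
    obtain ⟨rfl, rfl⟩ := h7
    simp only [B0, C0] at h2 h4 h5 h6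
    have e1 : X l2 i - X l1 j = Y l2 k - Y l1 i' := by linear_combination -h2 - h4
    rcases key_two l2 i l1 j i' k e1 with ⟨rfl, rfl⟩ | h8
    · apply h0
      simp only [A0, Prod.mk.injEq]
      exact ⟨(add_right_cancel h2).symm, trivial⟩
    · apply h8 l3 j3 k3
      linear_combination h2 + h5 - h6

end Pool.Agent.H.MP_b7335c_lc.h16
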