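import Mathlib
import Pool.Agent.H.MP_b7335c_lc.h16.Base

/-!
# Storing two-element sets with two adaptive bitprobes: the exponent 2/3 is not optimal

The minimum space of an adaptive two-probe scheme for subsets of size at most two of a universe of
size `m` is `O(m ^ 0.6552)`, hence not `Ω(m ^ (2/3))`.
-/

namespace Pool.Agent.Results.MP_b7335c_lc.NotTwoThirds

open Filter Topology H.MP_b7335c_lc.h16

/-- An adaptive two-probe scheme for subsets of size at most `n` of a universe with `m` elements:
three bit tables with `a`, `b`, `c` bits, a position in each table for every element, and for every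
subset `S` a filling of the tables; the query `x` reads the bit at `A x` of the first table, then the
bit at `B x` of the second table if the first bit is `0` (`false`) and the bit at `C x` of the third
table otherwise, and the answer is `x ∈ S` exactly when this second bit is `1` (`true`). It is correct
for all `S` with at most `n` elements. -/
structure Scheme (n m : ℕ) where
  a : ℕ
  b : ℕ
  c : ℕ
  A : Fin m → Fin a
  B : Fin m → Fin b
  C : Fin m → Fin c
  fillA : Finset (Fin m) → Fin a → Bool
  fillB : Finset (Fin m) → Fin b → Bool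
  fillC : Finset (Fin m) → Fin c → Bool
  correct : ∀ S : Finset (Fin m), S.card ≤ n → ∀ x : Fin m,
    (if fillA S (A x) = false then fillB S (B x) else fillC S (C x)) = true ↔ x ∈ S

/-- The space of a scheme: its total number of bits. -/
def Scheme.space {n m : ℕ} (P : Scheme n m) : ℕ := P.a + P.b + P.c

/-- `s_A(n, m, 2)`: the minimum space of an adaptive two-probe scheme. -/
noncomputable def sA (n m : ℕ) : ℕ := sInf {s | ∃ P : Scheme n m, P.space = s}

/-- The trivial scheme; so the minimum is attained. -/
theorem sA_attained (n m : ℕ) : ∃ P : Scheme n m, P.space = sA n m := by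
  have h : {s | ∃ P : Scheme n m, P.space = s}.Nonempty :=
    ⟨_, { a := 1
          b := m
          c := 1
          A := fun _ => 0
          B := id
          C := fun _ => 0
          fillA := fun _ _ => false
          fillB := fun S x => decide (x ∈ S)
          fillC := fun _ _ => false
          correct := fun S _ x => by simp }, rfl⟩
  exact Nat.sInf_mem h

/-- From stored sets to schemes. -/
theorem exists_scheme {n m : ℕ} {E α β γ : Type} [Fintype α] [Fintype β] [Fintype γ] [Fintype E]
    {A : E → α} {B : E → β} {C : E → γ} (h : Stores n A B C) (hm : m ≤ Fintype.card E) :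
    ∃ P : Scheme n m, P.space = Fintype.card α + Fintype.card β + Fintype.card γ := by
  classical
  obtain ⟨ι⟩ : Nonempty (Fin m ↪ E) := by
    apply Function.Embedding.nonempty_of_card_le
    rwa [Fintype.card_fin]
  have h1 := (h.comp ι).rename (Fintype.equivFin α) (Fintype.equivFin β) (Fintype.equivFin γ)
  have h2 : ∀ S : Finset (Fin m), ∃ (tA : Fin (Fintype.card α) → Bool)
      (tB : Fin (Fintype.card β) → Bool) (tC : Fin (Fintype.card γ) → Bool), S.card ≤ n →
      ∀ x, (if tA (Fintype.equivFin α (A (ι x))) = false then tB (Fintype.equivFin β (B (ι x)))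
        else tC (Fintype.equivFin γ (C (ι x)))) = true ↔ x ∈ S := by
    intro S
    by_cases hS : S.card ≤ n
    · obtain ⟨tA, tB, tC, ht⟩ := h1 S hS
      refine ⟨tA, tB, tC, fun _ x => ?_⟩
      rw [← ht x]
      cases tA (Fintype.equivFin α (A (ι x))) <;> simp
    · exact ⟨fun _ => false, fun _ => false, fun _ => false, fun h3 => absurd h3 hS⟩
  choose tA tB tC ht using h2
  exact ⟨{ a := Fintype.card α
           b := Fintype.card β
           c := Fintype.card γ
           A := fun x => Fintype.equivFin α (A (ι x))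
           B := fun x => Fintype.equivFin β (B (ι x))
           C := fun x => Fintype.equivFin γ (C (ι x))
           fillA := tA
           fillB := tB
           fillC := tC
           correct := fun S hS x => ht S hS x }, rfl⟩

/-- The schemes from the powers of the base structure. -/
theorem exists_scheme_pow (k m : ℕ) (hm : m ≤ 416 ^ k) :
    ∃ P : Scheme 2 m, P.space = 3 * 52 ^ k := by
  have h := ((star0.blow (Fin 4)).pi k).stores
  have hE : Fintype.card (Fin k → E0 × Fin 4) = 416 ^ k := by
    simp [Fintype.card_pi, Fintype.card_prod, ZMod.card]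
  have hα : Fintype.card (Fin k → ZMod 13 × Fin 4) = 52 ^ k := by
    simp [Fintype.card_pi, Fintype.card_prod, ZMod.card]
  obtain ⟨P, hP⟩ := exists_scheme (m := m) h (by rw [hE]; exact hm)
  refine ⟨P, ?_⟩
  rw [hP, hα]
  ring

/-- The exponent. -/
theorem exponent_lt : Real.log 52 / Real.log 416 < 0.6552 := by
  have h1 : 0 < Real.log 416 := Real.log_pos (by norm_num)
  rw [div_lt_iff₀ h1]
  have h2' : (52 : ℕ) ^ 1250 < 416 ^ 819 := by decide +kernel
  have h2 : (52 : ℝ) ^ 1250 < 416 ^ 819 := by exact_mod_cast h2'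
  have h3 := Real.log_lt_log (by positivity) h2
  rw [Real.log_pow, Real.log_pow] at h3
  push_cast at h3
  linarith

theorem rpow_exponent (k : ℕ) : ((416 : ℝ) ^ k) ^ (Real.log 52 / Real.log 416) = 52 ^ k := by
  have h1 : 0 < Real.log 416 := Real.log_pos (by norm_num)
  rw [← Real.rpow_natCast, ← Real.rpow_mul (by norm_num), mul_comm, Real.rpow_mul (by norm_num),
    Real.rpow_natCast]
  congr 1
  rw [Real.rpow_def_of_pos (by norm_num), mul_div_cancel₀ _ h1.ne', Real.exp_log (by norm_num)]

/-- **Main construction.** -/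
theorem upper (m : ℕ) (hm : 1 ≤ m) :
    ∃ P : Scheme 2 m, (P.space : ℝ) ≤ 156 * (m : ℝ) ^ (Real.log 52 / Real.log 416) := by
  have hθ : 0 ≤ Real.log 52 / Real.log 416 :=
    div_nonneg (Real.log_nonneg (by norm_num)) (Real.log_nonneg (by norm_num))
  have hm1 : (1 : ℝ) ≤ m := by exact_mod_cast hm
  obtain ⟨P, hP⟩ := exists_scheme_pow (Nat.clog 416 m) m (Nat.le_pow_clog (by norm_num) m)
  refine ⟨P, ?_⟩
  rw [hP]
  rcases Nat.eq_zero_or_pos (Nat.clog 416 m) with h0 | h0
  · rw [h0]
    have h1 : (1 : ℝ) ≤ (m : ℝ) ^ (Real.log 52 / Real.log 416) := Real.one_le_rpow hm1 hθ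
    push_cast
    linarith
  · obtain ⟨k, hk⟩ : ∃ k, Nat.clog 416 m = k + 1 := ⟨Nat.clog 416 m - 1, by omega⟩
    rw [hk]
    have h2 : 416 ^ k < m := by
      apply (Nat.lt_clog_iff_pow_lt (by norm_num)).1
      omega
    have h3 : (52 : ℝ) ^ k ≤ (m : ℝ) ^ (Real.log 52 / Real.log 416) := by
      rw [← rpow_exponent k]
      apply Real.rpow_le_rpow (by positivity) _ hθ
      exact_mod_cast h2.le
    push_cast
    rw [pow_succ]
    linarith

/-- **The conjecture of Radhakrishnan et al. is false.** (1) For every `m ≥ 1` there is an adaptive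
two-probe scheme for subsets of size at most two with at most `156 m ^ θ` bits, where
`θ = log 52 / log 416`. (2) `θ < 0.6552`. (3) The minimum space `s_A(2, m, 2)` is not
`Ω(m ^ (2/3))`; (4) even `s_A(2, m, 2) / m ^ (2/3)` tends to `0`. -/
theorem result :
    (∀ m : ℕ, 1 ≤ m →
      ∃ P : Scheme 2 m, (P.space : ℝ) ≤ 156 * (m : ℝ) ^ (Real.log 52 / Real.log 416)) ∧
    Real.log 52 / Real.log 416 < 0.6552 ∧
    (¬ ∃ c : ℝ, 0 < c ∧ ∀ᶠ m : ℕ in atTop, c * (m : ℝ) ^ (2 / 3 : ℝ) ≤ sA 2 m) ∧
    Tendsto (fun m : ℕ => (sA 2 m : ℝ) / (m : ℝ) ^ (2 / 3 : ℝ)) atTop (𝓝 0) := by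
  have hlim : Tendsto (fun m : ℕ => (sA 2 m : ℝ) / (m : ℝ) ^ (2 / 3 : ℝ)) atTop (𝓝 0) := by
    have h1 : Tendsto (fun m : ℕ => 156 * (m : ℝ) ^ (-(2 / 3 - Real.log 52 / Real.log 416)))
        atTop (𝓝 (156 * 0)) := by
      apply Tendsto.const_mul
      apply (tendsto_rpow_neg_atTop _).comp tendsto_natCast_atTop_atTop
      have := exponent_lt
      norm_num at this ⊢
      linarith
    rw [mul_zero] at h1
    refine tendsto_of_tendsto_of_tendsto_of_le_of_le' tendsto_const_nhds h1 ?_ ?_
    · exact Eventually.of_forall fun m => by positivity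
    · filter_upwards [eventually_ge_atTop 1] with m hm
      obtain ⟨P, hP⟩ := upper m hm
      have hm0 : (0 : ℝ) < m := by exact_mod_cast hm
      have h2' : sA 2 m ≤ P.space := Nat.sInf_le ⟨P, rfl⟩
      have h2 : (sA 2 m : ℝ) ≤ P.space := by exact_mod_cast h2'
      rw [div_le_iff₀ (Real.rpow_pos_of_pos hm0 _), mul_assoc, ← Real.rpow_add hm0]
      refine (h2.trans hP).trans (le_of_eq ?_)
      congr 2
      ring
  refine ⟨upper, exponent_lt, ?_, hlim⟩
  rintro ⟨c, hc, h⟩
  have h1 := hlim.eventually_lt_const hc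
  obtain ⟨m, hm1, hm2, hm3⟩ := (h.and (h1.and (eventually_ge_atTop 1))).exists
  have hm0 : (0 : ℝ) < m := by exact_mod_cast hm3
  rw [div_lt_iff₀ (Real.rpow_pos_of_pos hm0 _)] at hm2
  linarith

end Pool.Agent.Results.MP_b7335c_lc.NotTwoThirds
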