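import Mathlib

/-! Star structures: tensor-closed structures that give two-probe schemes. -/

namespace Pool.Agent.H.MP_b7335c_lc.h16

/-- Every subset of size at most `n` can be stored. -/
def Stores (n : ℕ) {E α β γ : Type} (A : E → α) (B : E → β) (C : E → γ) : Prop :=
  ∀ S : Finset E, S.card ≤ n → ∃ (tA : α → Bool) (tB : β → Bool) (tC : γ → Bool),
    ∀ x, (if tA (A x) = true then tC (C x) else tB (B x)) = true ↔ x ∈ S

/-- The tensor-closed property. -/
structure Star {E α β γ : Type} (A : E → α) (B : E → β) (C : E → γ) : Prop where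
  ab : ∀ x y, A x = A y → B x = B y → x = y
  ac : ∀ x y, A x = A y → C x = C y → x = y
  one : ∀ x u v, B u = B x → C v = C x → A u = A v → A u = A x
  two : ∀ x y u v p q, A x ≠ A y → A u = A y → B u = B x → A v = A x → C v = C y →
    B p = B y → C q = C x → A p ≠ A q

section

variable {E α β γ : Type} {A : E → α} {B : E → β} {C : E → γ}

open Classical in
/-- The filling when `x` is looked up in the second table and `y` in the third. -/
theorem fill_mixed (h : Star A B C) {x y : E} (hA : A x ≠ A y)
    (hpq : ∀ p q, B p = B x → C q = C y → A p ≠ A q) :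
    ∃ (tA : α → Bool) (tB : β → Bool) (tC : γ → Bool),
      ∀ e, (if tA (A e) = true then tC (C e) else tB (B e)) = true ↔ e = x ∨ e = y := by
  refine ⟨fun a => decide (a = A y ∨ (a ≠ A x ∧ ∃ p, B p = B x ∧ A p = a)),
    fun b => decide (b = B x), fun c => decide (c = C y), fun e => ?_⟩
  by_cases h1 : A e = A y ∨ (A e ≠ A x ∧ ∃ p, B p = B x ∧ A p = A e)
  · rw [if_pos (decide_eq_true h1), decide_eq_true_iff]
    rcases h1 with h1 | ⟨h1, p, hp, hpe⟩
    · constructor
      · intro h2
        exact Or.inr (h.ac e y h1 h2)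
      · rintro (rfl | rfl)
        · exact absurd h1 hA
        · rfl
    · constructor
      · intro h2
        exact absurd hpe (hpq p e hp h2)
      · rintro (rfl | rfl)
        · exact absurd rfl h1
        · rfl
  · rw [if_neg (by rw [decide_eq_true_iff]; exact h1), decide_eq_true_iff]
    push Not at h1
    constructor
    · intro h2
      by_cases h3 : A e = A x
      · exact Or.inl (h.ab e x h3 h2)
      · exact absurd rfl (h1.2 h3 e h2)
    · rintro (rfl | rfl)
      · rfl
      · exact absurd rfl h1.1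

open Classical in
/-- A star structure stores all sets `{x, y}`. -/
theorem Star.pair (h : Star A B C) (x y : E) :
    ∃ (tA : α → Bool) (tB : β → Bool) (tC : γ → Bool),
      ∀ e, (if tA (A e) = true then tC (C e) else tB (B e)) = true ↔ e = x ∨ e = y := by
  by_cases h0 : ∀ e, (A e = A x ∨ A e = A y) → (B e = B x ∨ B e = B y) → e = x ∨ e = y
  · refine ⟨fun a => decide (a ≠ A x ∧ a ≠ A y), fun b => decide (b = B x ∨ b = B y),
      fun _ => false, fun e => ?_⟩
    by_cases h1 : A e ≠ A x ∧ A e ≠ A y
    · rw [if_pos (decide_eq_true h1)]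
      constructor
      · intro h2
        exact absurd h2 (by simp)
      · rintro (rfl | rfl)
        · exact absurd rfl h1.1
        · exact absurd rfl h1.2
    · rw [if_neg (by rw [decide_eq_true_iff]; exact h1), decide_eq_true_iff]
      constructor
      · intro h2
        refine h0 e ?_ h2
        by_contra h3
        push Not at h3
        exact h1 h3
      · rintro (rfl | rfl)
        · exact Or.inl rfl
        · exact Or.inr rfl
  by_cases h0' : ∀ e, (A e = A x ∨ A e = A y) → (C e = C x ∨ C e = C y) → e = x ∨ e = y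
  · refine ⟨fun a => decide (a = A x ∨ a = A y), fun _ => false,
      fun c => decide (c = C x ∨ c = C y), fun e => ?_⟩
    by_cases h1 : A e = A x ∨ A e = A y
    · rw [if_pos (decide_eq_true h1), decide_eq_true_iff]
      constructor
      · intro h2
        exact h0' e h1 h2
      · rintro (rfl | rfl)
        · exact Or.inl rfl
        · exact Or.inr rfl
    · rw [if_neg (by rw [decide_eq_true_iff]; exact h1)]
      constructor
      · intro h2
        exact absurd h2 (by simp)
      · rintro (rfl | rfl)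
        · exact absurd (Or.inl rfl) h1
        · exact absurd (Or.inr rfl) h1
  push Not at h0 h0'
  obtain ⟨e, he1, he2, hex, hey⟩ := h0
  obtain ⟨f, hf1, hf2, hfx, hfy⟩ := h0'
  have hA : A x ≠ A y := by
    intro hxy
    rcases he2 with h2 | h2
    · exact hex (h.ab e x (by rcases he1 with h3 | h3 <;> rw [h3]; exact hxy.symm) h2)
    · exact hey (h.ab e y (by rcases he1 with h3 | h3 <;> rw [h3]; exact hxy) h2)
  -- the two alternatives for `e`
  have he : (A e = A y ∧ B e = B x) ∨ (A e = A x ∧ B e = B y) := by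
    rcases he1 with h1 | h1
    · rcases he2 with h2 | h2
      · exact absurd (h.ab e x h1 h2) hex
      · exact Or.inr ⟨h1, h2⟩
    · rcases he2 with h2 | h2
      · exact Or.inl ⟨h1, h2⟩
      · exact absurd (h.ab e y h1 h2) hey
  have hf : (A f = A y ∧ C f = C x) ∨ (A f = A x ∧ C f = C y) := by
    rcases hf1 with h1 | h1
    · rcases hf2 with h2 | h2
      · exact absurd (h.ac f x h1 h2) hfx
      · exact Or.inr ⟨h1, h2⟩
    · rcases hf2 with h2 | h2
      · exact Or.inl ⟨h1, h2⟩
      · exact absurd (h.ac f y h1 h2) hfy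
  rcases he with ⟨e1, e2⟩ | ⟨e1, e2⟩
  · rcases hf with ⟨f1, f2⟩ | ⟨f1, f2⟩
    · exfalso
      have := h.one x e f e2 f2 (e1.trans f1.symm)
      exact hA (this.symm.trans e1)
    · -- `y` is looked up in the second table, `x` in the third
      obtain ⟨tA, tB, tC, ht⟩ := fill_mixed h (x := y) (y := x) (Ne.symm hA)
        (fun p q hp hq => h.two x y e f p q hA e1 e2 f1 f2 hp hq)
      refine ⟨tA, tB, tC, fun z => (ht z).trans ?_⟩
      exact or_comm
  · rcases hf with ⟨f1, f2⟩ | ⟨f1, f2⟩
    · exact fill_mixed h hA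
        (fun p q hp hq => h.two y x e f p q (Ne.symm hA) e1 e2 f1 f2 hp hq)
    · exfalso
      have := h.one y e f e2 f2 (e1.trans f1.symm)
      exact hA (e1.symm.trans this)

theorem Star.stores (h : Star A B C) : Stores 2 A B C := by
  classical
  intro S hS
  have hcases : S = ∅ ∨ ∃ x y, ∀ e, e ∈ S ↔ e = x ∨ e = y := by
    rcases Nat.lt_or_ge S.card 1 with h1 | h1
    · left
      exact Finset.card_eq_zero.1 (by omega)
    · right
      rcases Nat.lt_or_ge S.card 2 with h2 | h2
      · obtain ⟨x, hx⟩ := Finset.card_eq_one.1 (show S.card = 1 by omega)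
        refine ⟨x, x, fun e => ?_⟩
        rw [hx, Finset.mem_singleton]
        tauto
      · obtain ⟨x, y, _, hxy⟩ := Finset.card_eq_two.1 (show S.card = 2 by omega)
        refine ⟨x, y, fun e => ?_⟩
        rw [hxy, Finset.mem_insert, Finset.mem_singleton]
  rcases hcases with rfl | ⟨x, y, hxy⟩
  · exact ⟨fun _ => false, fun _ => false, fun _ => false, fun e => by simp⟩
  · obtain ⟨tA, tB, tC, ht⟩ := h.pair x y
    exact ⟨tA, tB, tC, fun e => (ht e).trans (hxy e).symm⟩

/-- Powers of a star structure. -/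
theorem Star.pi (h : Star A B C) (k : ℕ) :
    Star (fun (f : Fin k → E) i => A (f i)) (fun (f : Fin k → E) i => B (f i))
      (fun (f : Fin k → E) i => C (f i)) where
  ab x y h1 h2 := by
    funext i
    exact h.ab _ _ (congrFun h1 i) (congrFun h2 i)
  ac x y h1 h2 := by
    funext i
    exact h.ac _ _ (congrFun h1 i) (congrFun h2 i)
  one x u v h1 h2 h3 := by
    funext i
    exact h.one _ _ _ (congrFun h1 i) (congrFun h2 i) (congrFun h3 i)
  two x y u v p q h0 h1 h2 h3 h4 h5 h6 h7 := by
    obtain ⟨i, hi⟩ := Function.ne_iff.1 h0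
    exact h.two (x i) (y i) (u i) (v i) (p i) (q i) hi (congrFun h1 i) (congrFun h2 i)
      (congrFun h3 i) (congrFun h4 i) (congrFun h5 i) (congrFun h6 i) (congrFun h7 i)

/-- Blow-up of the second and third tables. -/
theorem Star.blow (h : Star A B C) (τ : Type) :
    Star (fun e : E × τ => A e.1) (fun e : E × τ => (B e.1, e.2))
      (fun e : E × τ => (C e.1, e.2)) where
  ab x y h1 h2 := by
    rw [Prod.mk.injEq] at h2
    exact Prod.ext (h.ab _ _ h1 h2.1) h2.2
  ac x y h1 h2 := by
    rw [Prod.mk.injEq] at h2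
    exact Prod.ext (h.ac _ _ h1 h2.1) h2.2
  one x u v h1 h2 h3 := by
    rw [Prod.mk.injEq] at h1 h2
    exact h.one _ _ _ h1.1 h2.1 h3
  two x y u v p q h0 h1 h2 h3 h4 h5 h6 := by
    rw [Prod.mk.injEq] at h2 h4 h5 h6
    exact h.two x.1 y.1 u.1 v.1 p.1 q.1 h0 h1 h2.1 h3 h4.1 h5.1 h6.1

/-- Restriction to a smaller universe. -/
theorem Stores.comp {n : ℕ} (h : Stores n A B C) {F : Type} (ι : F ↪ E) :
    Stores n (fun x => A (ι x)) (fun x => B (ι x)) (fun x => C (ι x)) := by
  intro S hS
  obtain ⟨tA, tB, tC, ht⟩ := h (S.map ι) (by rwa [Finset.card_map])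
  refine ⟨tA, tB, tC, fun x => (ht (ι x)).trans ?_⟩
  exact Finset.mem_map' ι

/-- Renaming the positions. -/
theorem Stores.rename {n : ℕ} (h : Stores n A B C) {α' β' γ' : Type} (eA : α ≃ α') (eB : β ≃ β')
    (eC : γ ≃ γ') :
    Stores n (fun x => eA (A x)) (fun x => eB (B x)) (fun x => eC (C x)) := by
  intro S hS
  obtain ⟨tA, tB, tC, ht⟩ := h S hS
  refine ⟨fun a => tA (eA.symm a), fun b => tB (eB.symm b), fun c => tC (eC.symm c), fun x => ?_⟩
  simp only [Equiv.symm_apply_apply]
  exact ht x

end

/-- The first coordinates of the four rectangles. -/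
def X : Fin 4 → Fin 2 → ZMod 13 := ![![6, 2], ![7, 10], ![2, 9], ![0, 5]]

/-- The second coordinates of the four rectangles. -/
def Y : Fin 4 → Fin 2 → ZMod 13 := ![![1, 6], ![10, 4], ![8, 11], ![1, 10]]

theorem X_inj : ∀ l i j, X l i = X l j → i = j := by decide

theorem Y_inj : ∀ l i j, Y l i = Y l j → i = j := by decide

theorem key_one : ∀ l i l' j k, Y l i - X l i = Y l' k - X l' j → l = l' ∧ i = j := by decide

theorem key_two : ∀ l i l' j, ∀ i' k, X l i - X l' j = Y l k - Y l' i' →
    (l = l' ∧ i = j) ∨ ∀ l'' j'' k'',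
      Y l i - X l' i' - (X l i - X l' j) ≠ Y l'' k'' - X l'' j'' := by decide

end Pool.Agent.H.MP_b7335c_lc.h16
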